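import Pool.Agent.Q139.DT.J4
import Pool.Agent.Q139.DT.J5
import Pool.Agent.Q139.DT.J6
import Pool.Agent.Q139.DT.J7

namespace Pool.Agent.Results.MP_548d6e_co.DoubleTiling

open Q139.DT

/-- Q1 answered YES: there is a multiple tiling of the plane of density two by convex polygons
(octagons) which is edge-disjoint, vertex-disjoint, isohedral and irreducible. -/
theorem result : ∃ (ι : Type) (T : ι → ConvexPolygon),
    IsMultipleTiling T 2 ∧ EdgeDisjoint T ∧ VertexDisjoint T ∧ Isohedral T ∧ Irreducible T 2 :=
  assembly (t4 t1) t5 t6 t7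

end Pool.Agent.Results.MP_548d6e_co.DoubleTiling
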